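import Pool.Agent.Helper29.AR.Props
import Pool.Agent.Helper19.RC.Cross

/-!
Project AR (MP_b55b7c_an), packet SubE: the subalgebra of the crossed product given by an
invariant element.
-/

open scoped ENNReal NNReal InnerProductSpace ComplexOrder
open Filter Topology

attribute [-instance] CStarMatrix.instAlgebra CStarMatrix.instModule CStarMatrix.instSMul
  CStarMatrix.instMulAction CStarMatrix.instDistribMulAction

noncomputable section
namespace RC
universe u

namespace H19SubE

open H19Cross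

section
variable {A R : Type u} [CStarAlgebra A] [PartialOrder A] [StarOrderedRing A]
  [CStarAlgebra R] {G : Type} [Group G] [Fintype G]
  {α : G → A ≃⋆ₐ[ℂ] A} {k : A →⋆ₐ[ℂ] R} {w : G → R}

/-- One term. -/
def tm (k : A →⋆ₐ[ℂ] R) (w : G → R) (e : A) (μ : ℂ) (y : A) (g : G) : R :=
  (μ • (1 : R) + k (e * y * e)) * w g

/-- The set of all sums. -/
def FS (k : A →⋆ₐ[ℂ] R) (w : G → R) (e : A) : Set R :=
  {r | ∃ (μ : G → ℂ) (y : G → A), r = ∑ g, tm k w e (μ g) (y g) g}

omit [PartialOrder A] [StarOrderedRing A] [Group G] in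
theorem tm_add (e : A) (μ ν : ℂ) (y z : A) (g : G) :
    tm k w e μ y g + tm k w e ν z g = tm k w e (μ + ν) (y + z) g := by
  unfold tm
  rw [← add_mul, mul_add e, add_mul _ _ e, map_add, add_smul]
  congr 1
  abel

omit [PartialOrder A] [StarOrderedRing A] [Group G] in
theorem tm_zero (e : A) (g : G) : tm k w e 0 0 g = 0 := by
  unfold tm
  rw [zero_smul, mul_zero, zero_mul, map_zero, add_zero, zero_mul]

omit [PartialOrder A] [StarOrderedRing A] [Group G] in
theorem fs_add (e : A) {r s : R} (hr : r ∈ FS k w e) (hs : s ∈ FS k w e) : r + s ∈ FS k w e := by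
  obtain ⟨μ, y, rfl⟩ := hr
  obtain ⟨ν, z, rfl⟩ := hs
  refine ⟨fun g => μ g + ν g, fun g => y g + z g, ?_⟩
  rw [← Finset.sum_add_distrib]
  exact Finset.sum_congr rfl (fun g _ => tm_add e _ _ _ _ g)

omit [PartialOrder A] [StarOrderedRing A] [Group G] in
theorem fs_zero (e : A) : (0 : R) ∈ FS k w e := by
  refine ⟨fun _ => 0, fun _ => 0, ?_⟩
  exact (Finset.sum_eq_zero (fun g _ => tm_zero e g)).symm

omit [PartialOrder A] [StarOrderedRing A] [Group G] in
theorem fs_tm (e : A) (μ : ℂ) (y : A) (g : G) : tm k w e μ y g ∈ FS k w e := by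
  classical
  refine ⟨Pi.single g μ, Pi.single g y, ?_⟩
  rw [Finset.sum_eq_single g]
  · rw [Pi.single_eq_same, Pi.single_eq_same]
  · intro h _ hh
    rw [Pi.single_eq_of_ne hh, Pi.single_eq_of_ne hh, tm_zero]
  · intro h
    exact absurd (Finset.mem_univ g) h

omit [PartialOrder A] [StarOrderedRing A] [Group G] in
theorem fs_sum (e : A) {ι : Type*} (s : Finset ι) (f : ι → R) (h : ∀ i ∈ s, f i ∈ FS k w e) :
    ∑ i ∈ s, f i ∈ FS k w e := by
  classical
  induction s using Finset.induction_on with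
  | empty => rw [Finset.sum_empty]; exact fs_zero e
  | insert a s ha ih =>
    rw [Finset.sum_insert ha]
    exact fs_add e (h a (Finset.mem_insert_self a s))
      (ih (fun i hi => h i (Finset.mem_insert_of_mem hi)))

theorem tm_mul (hc : IsCross α k w) (e : A) (he : ∀ g, α g e = e) (μ ν : ℂ) (y z : A) (g h : G) :
    tm k w e μ y g * tm k w e ν z h =
      tm k w e (μ * ν) (μ • α g z + ν • y + y * e * e * α g z) (g * h) := by
  classical
  unfold tm
  have h1 : w g * (ν • (1 : R) + k (e * z * e)) = (ν • (1 : R) + k (e * α g z * e)) * w g := by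
    have h0 : α g (e * z * e) = e * α g z * e := by rw [map_mul (α g), map_mul (α g), he]
    rw [mul_add, add_mul, u_k hc, h0, mul_smul_comm, mul_one, smul_mul_assoc, one_mul]
  rw [mul_assoc, ← mul_assoc (w g), h1, hc.2.1]
  have h2 : (μ • (1 : R) + k (e * y * e)) * (ν • (1 : R) + k (e * α g z * e)) =
      (μ * ν) • (1 : R) + k (e * (μ • α g z + ν • y + y * e * e * α g z) * e) := by
    rw [add_mul, mul_add, mul_add, mul_add e, mul_add e, add_mul _ _ e, add_mul _ _ e, map_add,
      map_add]
    rw [smul_mul_smul_comm, one_mul, smul_mul_assoc, one_mul, mul_smul_comm, mul_one, ← map_mul,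
      mul_smul_comm, smul_mul_assoc, mul_smul_comm, smul_mul_assoc, map_smul, map_smul]
    have h3 : e * y * e * (e * α g z * e) = e * (y * e * e * α g z) * e := by
      simp only [mul_assoc]
    rw [h3]
    abel
  rw [← h2]
  simp only [mul_assoc]

theorem tm_star (ha : IsAct α) (hc : IsCross α k w) (e : A) (he0 : IsSelfAdjoint e)
    (he : ∀ g, α g e = e) (μ : ℂ) (y : A) (g : G) :
    star (tm k w e μ y g) = tm k w e (star μ) (α g⁻¹ (star y)) g⁻¹ := by
  classical
  unfold tm
  have h0 : α g⁻¹ (e * (star y * e)) = e * α g⁻¹ (star y) * e := by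
    rw [map_mul (α g⁻¹), map_mul (α g⁻¹), he, mul_assoc]
  rw [star_mul, u_star hc, star_add, star_smul, star_one, ← map_star, star_mul, star_mul,
    he0.star_eq, mul_add, add_mul, u_k hc, h0, mul_smul_comm, mul_one, smul_mul_assoc, one_mul]

/-- The star subalgebra. -/
def FA (ha : IsAct α) (hc : IsCross α k w) (e : A) (he0 : IsSelfAdjoint e)
    (he : ∀ g, α g e = e) : StarSubalgebra ℂ R where
  carrier := FS k w e
  mul_mem' := by
    rintro r s ⟨μ, y, rfl⟩ ⟨ν, z, rfl⟩
    rw [Finset.sum_mul_sum]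
    refine fs_sum e _ _ (fun g _ => fs_sum e _ _ (fun h _ => ?_))
    rw [tm_mul hc e he]
    exact fs_tm e _ _ _
  add_mem' := fun hr hs => fs_add e hr hs
  algebraMap_mem' := by
    intro c
    have h1 : algebraMap ℂ R c = tm k w e c 0 1 := by
      classical
      unfold tm
      rw [mul_zero, zero_mul, map_zero, add_zero, u_one hc, mul_one, Algebra.algebraMap_eq_smul_one]
    rw [h1]
    exact fs_tm e _ _ _
  star_mem' := by
    rintro r ⟨μ, y, rfl⟩
    rw [star_sum]
    refine fs_sum e _ _ (fun g _ => ?_)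
    rw [tm_star ha hc e he0 he]
    exact fs_tm e _ _ _

end

end H19SubE

open H19SubE

theorem subE : SubEP.{u} := by
  intro A R _ _ _ _ _ _ G _ _ α k w ha hc e he0 he
  have hsa : IsSelfAdjoint e := IsSelfAdjoint.of_nonneg he0
  let F : StarSubalgebra ℂ R := FA ha hc e hsa he
  let C : StarSubalgebra ℂ R := F.topologicalClosure
  have hcl : IsClosed (C : Set R) := F.isClosed_topologicalClosure
  let _ : CStarAlgebra C := @StarSubalgebra.cstarAlgebra _ R _ _ _ _ _ C hcl
  let _ : PartialOrder C := CStarAlgebra.spectralOrder C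
  let _ : StarOrderedRing C := CStarAlgebra.spectralOrderedRing C
  refine ⟨C, inferInstance, inferInstance, inferInstance, C.subtype, ?_, ?_, ?_⟩
  · exact Subtype.val_injective
  · intro μ y
    refine ⟨⟨∑ g, (μ g • (1 : R) + k (e * y g * e)) * w g, ?_⟩, rfl⟩
    exact F.le_topologicalClosure ⟨μ, y, rfl⟩
  · intro c ε hε
    have h1 : (c : R) ∈ closure (F : Set R) := c.2
    obtain ⟨b, hb, hd⟩ := Metric.mem_closure_iff.1 h1 ε hε
    obtain ⟨μ, y, rfl⟩ := hb
    refine ⟨μ, y, ?_⟩
    rw [dist_eq_norm] at hd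
    exact hd.le

end RC
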